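import Pool.Agent.W412.TI.Spec

set_option autoImplicit false

/-!
Spaces of transitive interval maps: facts about the mean.
-/

namespace Pool.Agent.W234.TI

open Set Pool.Agent.W412.TI

/-- the extended function -/
noncomputable def GG (F : C(unitInterval, unitInterval)) (u : ℝ) : ℝ :=
  ((F (Set.projIcc 0 1 zero_le_one u) : unitInterval) : ℝ)

lemma GG_cont (F : C(unitInterval, unitInterval)) : Continuous (GG F) :=
  continuous_subtype_val.comp (F.continuous.comp continuous_projIcc)

lemma GG_nonneg (F : C(unitInterval, unitInterval)) (u : ℝ) : 0 ≤ GG F u := (F _).2.1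

lemma GG_le (F : C(unitInterval, unitInterval)) (u : ℝ) : GG F u ≤ 1 := (F _).2.2

lemma int_bd (F : C(unitInterval, unitInterval)) {x y : ℝ} (h : x ≤ y) :
    0 ≤ ∫ u in x..y, GG F u ∧ ∫ u in x..y, GG F u ≤ y - x := by
  constructor
  · exact intervalIntegral.integral_nonneg h fun u _ => GG_nonneg F u
  · have := intervalIntegral.integral_mono_on (μ := MeasureTheory.volume) (f := GG F)
      (g := fun _ : ℝ => (1 : ℝ)) h ((GG_cont F).intervalIntegrable x y)
      (continuous_const.intervalIntegrable x y) (fun u _ => GG_le F u)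
    simpa using this

lemma avg_eq (F : C(unitInterval, unitInterval)) (t x : ℝ) :
    avg F t x = ∫ s in (0:ℝ)..1, GG F (x + t * s) := rfl

lemma avg_bd (F : C(unitInterval, unitInterval)) (t x : ℝ) : 0 ≤ avg F t x ∧ avg F t x ≤ 1 := by
  rw [avg_eq]
  have hc : Continuous fun s : ℝ => GG F (x + t * s) := (GG_cont F).comp (by fun_prop)
  constructor
  · exact intervalIntegral.integral_nonneg zero_le_one fun u _ => GG_nonneg F _
  · have := intervalIntegral.integral_mono_on (μ := MeasureTheory.volume)
      (f := fun s : ℝ => GG F (x + t * s))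
      (g := fun _ : ℝ => (1 : ℝ)) zero_le_one (hc.intervalIntegrable 0 1)
      (continuous_const.intervalIntegrable 0 1) (fun u _ => GG_le F _)
    simpa using this

lemma avg_int (F : C(unitInterval, unitInterval)) (t x : ℝ) (ht : 0 < t) :
    avg F t x = t⁻¹ * ∫ u in x..(x + t), GG F u := by
  rw [avg_eq, intervalIntegral.integral_comp_add_mul (fun u => GG F u) ht.ne' x]
  simp

lemma avg_lip' (F : C(unitInterval, unitInterval)) (t x y : ℝ) (ht : 0 < t) (h : x ≤ y) :
    |avg F t x - avg F t y| ≤ (y - x) / t := by
  rw [avg_int F t x ht, avg_int F t y ht, ← mul_sub, abs_mul, abs_of_pos (inv_pos.2 ht),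
    div_eq_inv_mul]
  apply mul_le_mul_of_nonneg_left _ (inv_pos.2 ht).le
  rw [intervalIntegral.integral_interval_sub_interval_comm
    ((GG_cont F).intervalIntegrable _ _) ((GG_cont F).intervalIntegrable _ _)
    ((GG_cont F).intervalIntegrable _ _)]
  have h1 := int_bd F h
  have h2 := int_bd F (x := x + t) (y := y + t) (by linarith)
  rw [abs_le]
  constructor <;> linarith [h1.1, h1.2, h2.1, h2.2]

lemma avg_lip (F : C(unitInterval, unitInterval)) (t x y : ℝ) (ht : 0 < t) :
    |avg F t x - avg F t y| ≤ |x - y| / t := by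
  rcases le_total x y with h | h
  · rw [abs_of_nonpos (sub_nonpos.2 h), neg_sub]
    exact avg_lip' F t x y ht h
  · rw [abs_sub_comm (avg F t x), abs_of_nonneg (sub_nonneg.2 h)]
    exact avg_lip' F t y x ht h

lemma avg_zero (F : C(unitInterval, unitInterval)) (x : unitInterval) : avg F 0 x = F x := by
  rw [avg_eq]
  have : ∀ s : ℝ, GG F ((x : ℝ) + 0 * s) = F x := by
    intro s
    unfold GG
    rw [zero_mul, add_zero, projIcc_val]
  rw [intervalIntegral.integral_congr (fun s _ => this s)]
  simp

lemma err_cont : Continuous fun q : C(unitInterval, unitInterval) × ℝ => err q.1 q.2 := by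
  unfold err
  have h1 : Continuous fun q : C(unitInterval, unitInterval) × ℝ => avgC q.1 q.2 := by
    apply ContinuousMap.continuous_of_continuous_uncurry
    exact continuous_avg.comp (g := fun q : C(unitInterval, unitInterval) × ℝ × ℝ =>
      avg q.1 q.2.1 q.2.2)
      (f := fun z : (C(unitInterval, unitInterval) × ℝ) × unitInterval =>
        (z.1.1, z.1.2, (z.2 : ℝ))) (by fun_prop)
  have h2 : Continuous fun q : C(unitInterval, unitInterval) × ℝ => coeC q.1 := by
    apply ContinuousMap.continuous_of_continuous_uncurry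
    have : Continuous fun z : (C(unitInterval, unitInterval) × ℝ) × unitInterval =>
        ((z.1.1 z.2 : unitInterval) : ℝ) := by fun_prop
    exact this
  exact h1.dist h2

theorem avgFacts : Pool.Agent.W412.TI.S_AVG := by
  refine ⟨avg_bd, avg_lip, avg_zero, err_cont, ?_, ?_⟩
  · intro F t x
    exact ContinuousMap.dist_apply_le_dist (f := avgC F t) (g := coeC F) x
  · intro F
    unfold err
    have : avgC F 0 = coeC F := by
      ext x
      exact avg_zero F x
    rw [this, dist_self]

end Pool.Agent.W234.TI
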